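import Pool.Agent.Helper71.BM.Basic

set_option autoImplicit false

/-! # Reversing a ladder (module REV) -/

namespace Pool.Agent.Helper71.BM

open Finset ErdPos

theorem rev_range {α : Type} (f : ℕ → α) (d : ℕ) :
    (List.range d).map (fun j => f (d - 1 - j)) = ((List.range d).map f).reverse := by
  refine List.ext_getElem (by simp) fun i h1 h2 => ?_
  rw [List.getElem_reverse]
  simp only [List.getElem_map, List.getElem_range, List.length_map, List.length_range]

theorem rev_row {V : Type} (R : ℕ → ℕ → List V) (d a : ℕ) :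
    row (fun s j => (R s (d - 1 - j)).reverse) d a = (row R d a).reverse := by
  unfold row
  rw [List.reverse_flatten, List.map_map, ← rev_range]
  rfl

theorem st_REV : ST_REV := by
  intro V _ _ G h d R U Q hL
  obtain ⟨⟨hne, hnd, hch, hdj, hmem, hconn, hudj⟩, hqc, hqu, hqr⟩ := hL
  refine ⟨⟨?_, ?_, ?_, ?_, ?_, ?_, ?_⟩, ?_, ?_, ?_⟩
  · intro a ha i hi
    rw [Ne, List.reverse_eq_nil_iff]
    exact hne a ha _ (by omega)
  · intro a ha
    rw [rev_row, List.nodup_reverse]
    exact hnd a ha
  · intro a ha
    rw [rev_row, List.isChain_reverse]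
    refine (hch a ha).imp ?_
    intro x y hxy
    exact hxy.symm
  · intro a ha b hb hab
    rw [rev_row, rev_row]
    intro x hx hy
    exact hdj a ha b hb hab (List.mem_reverse.1 hx) (List.mem_reverse.1 hy)
  · intro a ha i hi v hv
    exact hmem a ha _ (by omega) v (List.mem_reverse.1 hv)
  · intro i hi
    exact hconn _ (by omega)
  · intro i hi j hj hij
    exact hudj _ (by omega) _ (by omega) (by omega)
  · intro s hs j hj
    obtain ⟨x, hx, y, hy, hxy⟩ := hqc s hs (d - 1 - j) (by omega)
    exact ⟨x, List.mem_reverse.2 hx, y, List.mem_reverse.2 hy, hxy⟩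
  · intro s hs j hj v hv
    exact hqu s hs _ (by omega) v hv
  · intro s hs j hj v hv a ha hva
    rw [rev_row, List.mem_reverse] at hva
    exact hqr s hs _ (by omega) v hv a ha hva

end Pool.Agent.Helper71.BM
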